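import Pool.Agent.H239.RangeAboveOne
import Pool.Agent.H239.RangeQuarter

/-!
# MP_9bce2c_an: for `q ≠ 2` a monotonic power mean has exponent in `(0, 1]`

For `1 ≤ q ≤ ∞`, `q ≠ 2` and `p ≠ 0`, if the weighted power mean with exponent `p` is monotonic
with respect to `δ_q` then `0 < p ≤ 1`, and `p > 1/4` if `q ≥ 7` (`q = ∞` included).  The
counterexamples are `2 × 2` matrices.

* `p > 1`: `X` is close to the projection `diag(1, 0)`, `Y = X - H` with `H` of spectrum
  `h₁, -h₂`, and `t` is close to `1`; there `M = (t X^p + (1 - t) Y^p)^(1/p)` exceeds `X` in the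
  direction of the kernel by an amount of order `(1 - t)^(1/p)`, which dominates all the
  other terms and raises the norm.
* `p < 0`: `X` and `Y` are close to two rank one projections; then the mean with `t = 1/2` is
  close to `0`.
* `0 < p ≤ 1/4` and `q ≥ 7`: see `Pool.Agent.H239.RangeQuarter`.
-/

namespace Pool.Agent.Results.MP_9bce2c_an.NoOtherRange

open Matrix Finset
open scoped ENNReal ComplexOrder
open Pool.Agent.Results.MP_9bce2c_an.SquareRootMean Pool.Agent.H239.RangeBase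
  Pool.Agent.H239.RangeAboveOne

variable {n : ℕ}

/-! ### Exponents above one -/

lemma tangent {h x Q : ℝ} (hh : 0 < h) (hQ : 1 ≤ Q) :
    h ^ Q + Q * h ^ (Q - 1) * x ≤ |h + x| ^ Q := by
  have hs : h ^ Q = h ^ (Q - 1) * h := by
    rw [← Real.rpow_add_one hh.ne']
    congr 1
    ring
  have h4 : h ^ Q + Q * h ^ (Q - 1) * x = h ^ Q * (1 + Q * (x / h)) := by
    rw [hs]
    field_simp
  have h5 : 0 ≤ h ^ Q := Real.rpow_nonneg hh.le _
  rw [h4]
  rcases le_total (-1) (x / h) with h1 | h1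
  · have h2 := one_add_mul_self_le_rpow_one_add h1 hQ
    have h3 : |h + x| = h * (1 + x / h) := by
      have : h + x = h * (1 + x / h) := by field_simp
      rw [this, abs_of_nonneg]
      exact mul_nonneg hh.le (by linarith)
    rw [h3, Real.mul_rpow hh.le (by linarith)]
    exact mul_le_mul_of_nonneg_left h2 h5
  · have h2 : 1 + Q * (x / h) ≤ 0 := by nlinarith
    have h3 : 0 ≤ |h + x| ^ Q := Real.rpow_nonneg (abs_nonneg _) _
    have : h ^ Q * (1 + Q * (x / h)) ≤ 0 := mul_nonpos_of_nonneg_of_nonpos h5 h2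
    linarith

/-- Finite `q ≠ 2` and `p > 1`. -/
lemma aboveOne_fin (q : ℝ≥0∞) (hq : 1 ≤ q) (ht : q ≠ ∞) (hq2 : q ≠ 2) (p : ℝ) (hp : 1 < p) :
    ¬ Monotonic p q := by
  have : Fact (1 ≤ q) := ⟨hq⟩
  set Q := q.toReal with hQd
  have hQ : 1 ≤ Q := toReal_ge hq ht
  have hQ2 : Q ≠ 2 := by
    intro h
    apply hq2
    rw [← ENNReal.ofReal_toReal ht, ← hQd, h]
    norm_num
  obtain ⟨ρ, hρ, h3, h4⟩ : ∃ ρ : ℝ, 0 < ρ ∧ ρ ^ (Q - 1) < ρ ^ (Q / 2) ∧ ρ ^ (Q / 2) < ρ := by
    rcases lt_or_gt_of_ne hQ2 with h | h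
    · refine ⟨4, by norm_num, ?_, ?_⟩
      · exact Real.rpow_lt_rpow_of_exponent_lt (by norm_num) (by linarith)
      · calc (4 : ℝ) ^ (Q / 2) < 4 ^ (1 : ℝ) :=
              Real.rpow_lt_rpow_of_exponent_lt (by norm_num) (by linarith)
          _ = 4 := Real.rpow_one _
    · refine ⟨1 / 4, by norm_num, ?_, ?_⟩
      · exact Real.rpow_lt_rpow_of_exponent_gt (by norm_num) (by norm_num) (by linarith)
      · calc (1 / 4 : ℝ) ^ (Q / 2) < (1 / 4) ^ (1 : ℝ) :=
              Real.rpow_lt_rpow_of_exponent_gt (by norm_num) (by norm_num) (by linarith)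
          _ = 1 / 4 := Real.rpow_one _
  set m := ρ ^ (Q / 2) with hm
  have hm0 : 0 < m := Real.rpow_pos_of_pos hρ _
  set α := Real.sqrt (m / (1 + m)) with hα
  set β := Real.sqrt (1 / (1 + m)) with hβ
  have hα2 : α ^ 2 = m / (1 + m) := Real.sq_sqrt (by positivity)
  have hβ2 : β ^ 2 = 1 / (1 + m) := Real.sq_sqrt (by positivity)
  have hα0 : 0 < α := Real.sqrt_pos.mpr (by positivity)
  have hβ0 : 0 < β := Real.sqrt_pos.mpr (by positivity)
  have hαβ : α ^ 2 + β ^ 2 = 1 := by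
    rw [hα2, hβ2]
    field_simp
    try ring
  have hκ1 : 0 < ρ * β ^ 2 - α ^ 2 := by
    rw [hα2, hβ2]
    have : ρ * (1 / (1 + m)) - m / (1 + m) = (ρ - m) / (1 + m) := by ring
    rw [this]
    exact div_pos (by linarith) (by linarith)
  set B := β ^ 2 - ρ * α ^ 2 + 2 * ((1 + ρ) * (α * β)) ^ 2 / (ρ * β ^ 2 - α ^ 2) with hB
  set l := 1 / (1 + |B|) with hl
  have hl0 : 0 < l := by positivity
  have hlB : l * B < 1 := by
    have h5 : l * B ≤ l * |B| := mul_le_mul_of_nonneg_left (le_abs_self B) hl0.le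
    have h6 : l * |B| < 1 := by
      rw [hl, one_div, inv_mul_lt_iff₀ (by positivity)]
      linarith
    linarith
  have hlρ : 0 < l * ρ := by positivity
  have e1 : l * ρ * β ^ 2 - l * α ^ 2 = l * (ρ * β ^ 2 - α ^ 2) := by ring
  refine partB q α β l (l * ρ) (Q * l ^ (Q - 1)) (Q * (l * ρ) ^ (Q - 1)) hα0 hβ0 hαβ ?_ ?_ ?_ ?_
    ?_ ?_ p hp
  · rw [e1]
    positivity
  · rw [e1]
    have : l * β ^ 2 - l * ρ * α ^ 2 + 2 * ((l + l * ρ) * (α * β)) ^ 2 /
        (l * (ρ * β ^ 2 - α ^ 2)) = l * B := by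
      rw [hB]
      have := hκ1.ne'
      field_simp
      try ring
    rw [this]
    exact hlB
  · positivity
  · positivity
  · rw [Real.mul_rpow hl0.le hρ.le, hα2, hβ2]
    have h5 : 0 < l ^ (Q - 1) := Real.rpow_pos_of_pos hl0 _
    have : Q * l ^ (Q - 1) * (m / (1 + m)) - Q * (l ^ (Q - 1) * ρ ^ (Q - 1)) * (1 / (1 + m)) =
        Q * l ^ (Q - 1) * (m - ρ ^ (Q - 1)) / (1 + m) := by ring
    rw [this]
    have h6 : 0 < m - ρ ^ (Q - 1) := by linarith
    positivity
  · intro ω hω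
    set T := l ^ Q + (l * ρ) ^ Q with hT
    have hT0 : 0 < T := by positivity
    have hlt : T ^ (1 / Q) < (T + ω) ^ (1 / Q) :=
      Real.rpow_lt_rpow hT0.le (by linarith) (by positivity)
    refine ⟨((T + ω) ^ (1 / Q) - T ^ (1 / Q)) / 2, by linarith, fun a b hab => ?_⟩
    have hQ0 : 0 < q.toReal := by linarith
    rw [lq_fin hQ0, lq_fin hQ0, Fin.sum_univ_two, Fin.sum_univ_two]
    simp only [Matrix.cons_val_zero, Matrix.cons_val_one, ← hQd]
    rw [abs_neg, abs_of_pos hl0, abs_of_pos hlρ, ← hT]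
    have h5 := tangent (x := a) hl0 hQ
    have h6 := tangent (x := -b) hlρ hQ
    have h7 : |-(l * ρ) + b| = |l * ρ + -b| := by
      rw [← abs_neg]
      congr 1
      ring
    rw [h7]
    have h8 : T + ω ≤ |l + a| ^ Q + |l * ρ + -b| ^ Q := by
      rw [hT]
      linarith
    have h9 : (T + ω) ^ (1 / Q) ≤ (|l + a| ^ Q + |l * ρ + -b| ^ Q) ^ (1 / Q) :=
      Real.rpow_le_rpow (by positivity) h8 (by positivity)
    linarith

/-- `q = ∞` and `p > 1`. -/
lemma aboveOne_top (p : ℝ) (hp : 1 < p) : ¬ Monotonic p ∞ := by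
  have : Fact (1 ≤ (∞ : ℝ≥0∞)) := ⟨le_top⟩
  refine partB ∞ (3 / 5) (4 / 5) (1 / 100) (3 / 400) 1 0 (by norm_num) (by norm_num)
    (by norm_num) (by norm_num) (by norm_num) (by norm_num) (by norm_num) (by norm_num) ?_ p hp
  intro ω hω
  refine ⟨ω / 2, by positivity, fun a b hab => ?_⟩
  have h1 : lq ∞ ![(1 / 100 : ℝ), -(3 / 400)] ≤ 1 / 100 := by
    rw [lq_top]
    refine ciSup_le fun i => ?_
    have e0 : |(1 / 100 : ℝ)| ≤ 1 / 100 := by rw [abs_of_pos (by norm_num)]
    have e1 : |-(3 / 400 : ℝ)| ≤ 1 / 100 := by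
      rw [abs_neg, abs_of_pos (by norm_num)]
      norm_num
    fin_cases i
    · exact e0
    · exact e1
  have h2 : |1 / 100 + a| ≤ lq ∞ ![(1 / 100 : ℝ) + a, -(3 / 400) + b] := by
    rw [lq_top]
    have := le_ciSup (f := fun i => |(![(1 / 100 : ℝ) + a, -(3 / 400) + b] : Fin 2 → ℝ) i|)
      (Set.finite_range _).bddAbove 0
    simpa using this
  have h3 := le_abs_self (1 / 100 + a)
  linarith

/-- No exponent above 1 works when `q ≠ 2`. -/
lemma aboveOne (q : ℝ≥0∞) (hq : 1 ≤ q) (hq2 : q ≠ 2) (p : ℝ) (hp : 1 < p) :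
    ¬ Monotonic p q := by
  by_cases ht : q = ∞
  · subst ht
    exact aboveOne_top p hp
  · exact aboveOne_fin q hq ht hq2 p hp

/-! ### Negative exponents -/

lemma abs_le_lq (q : ℝ≥0∞) [Fact (1 ≤ q)] (a : Fin n → ℝ) (i : Fin n) : |a i| ≤ lq q a := by
  have := PiLp.norm_apply_le (WithLp.toLp q a : PiLp q (fun _ : Fin n => ℝ)) i
  simpa [lq, Real.norm_eq_abs] using this

lemma lq_pair (q : ℝ≥0∞) [hq : Fact (1 ≤ q)] (d : ℝ) (hd : 0 ≤ d) :
    lq q ![d, -d] ≤ 2 * d := by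
  by_cases ht : q = ∞
  · subst ht
    rw [lq_top]
    refine ciSup_le fun i => ?_
    have e0 : |d| ≤ 2 * d := by rw [abs_of_nonneg hd]; linarith
    have e1 : |-d| ≤ 2 * d := by rw [abs_neg]; exact e0
    fin_cases i
    · exact e0
    · exact e1
  · have h1 : 1 ≤ q.toReal := toReal_ge hq.out ht
    have h0 : 0 < q.toReal := by linarith
    rw [lq_fin h0, Fin.sum_univ_two]
    simp only [Matrix.cons_val_zero, Matrix.cons_val_one]
    rw [abs_neg, abs_of_nonneg hd]
    have h3 : 0 ≤ d ^ q.toReal := Real.rpow_nonneg hd _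
    have h2 : d ^ q.toReal + d ^ q.toReal ≤ (2 * d) ^ q.toReal := by
      rw [Real.mul_rpow (by norm_num) hd]
      have h4 : (2 : ℝ) ≤ 2 ^ q.toReal := by
        calc (2 : ℝ) = 2 ^ (1 : ℝ) := by rw [Real.rpow_one]
          _ ≤ _ := Real.rpow_le_rpow_of_exponent_le (by norm_num) h1
      nlinarith
    calc (d ^ q.toReal + d ^ q.toReal) ^ (1 / q.toReal)
        ≤ ((2 * d) ^ q.toReal) ^ (1 / q.toReal) :=
          Real.rpow_le_rpow (by positivity) h2 (by positivity)
      _ = 2 * d := by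
          rw [← Real.rpow_mul (by positivity), mul_one_div_cancel h0.ne', Real.rpow_one]

lemma dg_nonneg {V G : Matrix (Fin n) (Fin n) ℂ} (hG : G.PosSemidef) (i : Fin n) :
    0 ≤ dg V G i :=
  (Complex.le_def.mp ((hG.conjTranspose_mul_mul_same V).diag_nonneg (i := i))).1

lemma dg_one {V : Matrix (Fin n) (Fin n) ℂ} (hV : Vᴴ * V = 1) (i : Fin n) : dg V 1 i = 1 := by
  simp [dg, hV]

/-- No negative exponent works, for any `q`. -/
lemma belowZero (q : ℝ≥0∞) (hq : 1 ≤ q) (p : ℝ) (hp : p < 0) : ¬ Monotonic p q := by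
  have : Fact (1 ≤ q) := ⟨hq⟩
  intro hmon
  set C : ℝ := 50 ^ (-1 / p) with hC
  have hC1 : 1 ≤ C := Real.one_le_rpow (by norm_num)
    (div_nonneg_of_nonpos (by norm_num) hp.le)
  set ε : ℝ := 1 / (4 * C) with hε
  have hε0 : 0 < ε := by positivity
  have hε1 : ε ≤ 1 / 4 := by
    rw [hε]
    exact one_div_le_one_div_of_le (by norm_num) (by linarith)
  set E : ℝ := ε ^ p with hE
  have hE0 : 0 < E := Real.rpow_pos_of_pos hε0 _
  have hpow : (E / 50) ^ (1 / p) = 1 / 4 := by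
    have h5 : (50 : ℝ) ^ (1 / p) = C⁻¹ := by
      rw [hC, ← Real.rpow_neg (by norm_num)]
      congr 1
      ring
    rw [hE, Real.div_rpow (Real.rpow_nonneg hε0.le _) (by norm_num), ← Real.rpow_mul hε0.le,
      mul_one_div_cancel hp.ne, Real.rpow_one, h5, hε]
    have : C ≠ 0 := by positivity
    field_simp
  set V : Matrix (Fin 2) (Fin 2) ℂ := !![24 / 25, -(7 / 25); 7 / 25, 24 / 25] with hV
  have hVV : Vᴴ * V = 1 := by
    ext i j
    fin_cases i <;> fin_cases j <;>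
      simp [hV, Matrix.mul_apply, Fin.sum_univ_two, map_ofNat] <;> norm_num
  set U : Matrix (Fin 2) (Fin 2) ℂ := !![4 / 5, 3 / 5; -(3 / 5), 4 / 5] with hU
  have hUU : Uᴴ * U = 1 := by
    ext i j
    fin_cases i <;> fin_cases j <;>
      simp [hU, Matrix.mul_apply, Fin.sum_univ_two, map_ofNat] <;> norm_num
  set dx : Fin 2 → ℝ := ![1, ε] with hdx
  have hdx0 : ∀ i, 0 < dx i := by
    intro i
    fin_cases i
    · simp [hdx]
    · simpa [hdx] using hε0
  set X : Matrix (Fin 2) (Fin 2) ℂ := diagonal (fun i => ((dx i : ℝ) : ℂ)) with hX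
  set Y : Matrix (Fin 2) (Fin 2) ℂ := V * diagonal (fun i => ((dx i : ℝ) : ℂ)) * Vᴴ with hY
  set y : Fin 2 → ℂ := ![24 / 25, 7 / 25] with hy
  have hXpos : X.PosDef := by
    rw [hX, posDef_diagonal_iff]
    intro i
    exact_mod_cast hdx0 i
  have hYpos : Y.PosDef := by
    have e : Y = ε • (1 : Matrix (Fin 2) (Fin 2) ℂ) + (1 - ε) • Matrix.vecMulVec y (star y) := by
      rw [hY]
      ext i j
      rw [Matrix.mul_apply, Fin.sum_univ_two, Matrix.mul_diagonal, Matrix.mul_diagonal,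
        Matrix.add_apply, Matrix.smul_apply, Matrix.smul_apply, Matrix.vecMulVec_apply]
      fin_cases i <;> fin_cases j <;> simp [hV, hdx, hy] <;> ring
    rw [e]
    exact (PosDef.one.smul hε0).add_posSemidef
      ((Matrix.posSemidef_vecMulVec_self_star y).smul (by linarith))
  set dE : Fin 2 → ℝ := ![1, E] with hdE
  have hdxE : (fun i => ((dx i ^ p : ℝ) : ℂ)) = fun i => ((dE i : ℝ) : ℂ) := by
    funext i
    fin_cases i
    · simp [hdx, hdE]
    · simp [hdx, hdE, hE]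
  have hXp : matPow X p = diagonal (fun i => ((dE i : ℝ) : ℂ)) := by
    rw [hX, matPow_diag, hdxE]
  have hYp : matPow Y p = V * diagonal (fun i => ((dE i : ℝ) : ℂ)) * Vᴴ := by
    rw [← hdxE]
    exact cfc_conj hVV hY _
  have hM1 : powerMean p 1 X Y = X := by
    unfold powerMean
    rw [one_smul, sub_self, zero_smul, add_zero, hX, matPow_diag, matPow_diag]
    congr 1
    funext i
    rw [← Real.rpow_mul (hdx0 i).le, mul_one_div_cancel hp.ne, Real.rpow_one]
  set S : Matrix (Fin 2) (Fin 2) ℂ :=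
    (1 / 2 : ℝ) • matPow X p + (1 - 1 / 2 : ℝ) • matPow Y p with hS
  set M := matPow S (1 / p) with hM
  have hMh : powerMean p (1 / 2) X Y = M := rfl
  have hSH : S.IsHermitian := by
    rw [hS]
    exact ((matPow_isHermitian p).smul (IsSelfAdjoint.all _)).add
      ((matPow_isHermitian p).smul (IsSelfAdjoint.all _))
  have hSc : ((1 : ℝ) • S + (-(E / 50)) • (1 : Matrix (Fin 2) (Fin 2) ℂ)).PosSemidef := by
    have e : (1 : ℝ) • S + (-(E / 50)) • (1 : Matrix (Fin 2) (Fin 2) ℂ) =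
        (1 / 2 : ℝ) • Matrix.vecMulVec (![1, 0] : Fin 2 → ℂ) (star ![1, 0]) +
        (1 / 2 : ℝ) • Matrix.vecMulVec y (star y) +
        (12 * E / 625 : ℝ) • Matrix.vecMulVec (![1, -7] : Fin 2 → ℂ) (star ![1, -7]) := by
      rw [hS, hXp, hYp]
      ext i j
      simp only [Matrix.add_apply, Matrix.smul_apply, Matrix.vecMulVec_apply]
      rw [Matrix.mul_apply, Fin.sum_univ_two, Matrix.mul_diagonal, Matrix.mul_diagonal,
        Matrix.diagonal_apply]
      fin_cases i <;> fin_cases j <;> simp [hV, hdE, hy] <;> ring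
    rw [e]
    exact (((Matrix.posSemidef_vecMulVec_self_star _).smul (by norm_num)).add
      ((Matrix.posSemidef_vecMulVec_self_star _).smul (by norm_num))).add
      ((Matrix.posSemidef_vecMulVec_self_star _).smul (by positivity))
  obtain ⟨W, hW, hSW⟩ := spec hSH
  set s := hSH.eigenvalues with hs
  have hs0 : ∀ i, E / 50 ≤ s i := fun i => by
    have := le_eig hW hSW 1 (-(E / 50)) hSc i
    linarith
  have hMW : M = W * diagonal (fun i => ((s i ^ (1 / p) : ℝ) : ℂ)) * Wᴴ := cfc_conj hW hSW _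
  have hMH : M.IsHermitian := matPow_isHermitian _
  have g := fc_psd hW hSW hMW (-1) 0 (1 / 4) (fun i => by
    have h5 : s i ^ (1 / p) ≤ (E / 50) ^ (1 / p) :=
      Real.rpow_le_rpow_of_nonpos (by positivity) (hs0 i)
        (div_nonpos_of_nonneg_of_nonpos zero_le_one hp.le)
    rw [hpow] at h5
    linarith)
  have g0 := dg_nonneg (V := V) g 0
  rw [dg_add, dg_add, dg_smul, dg_smul, dg_smul] at g0
  simp only [Pi.add_apply, Pi.smul_apply, smul_eq_mul, dg_one hVV] at g0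
  have hdY : dg V Y = dx := dg_diag hVV hY
  have hlow : 3 / 4 ≤ schatten q (M - Y) := by
    refine le_trans ?_ (schatten_ge q hVV (hMH.sub hYpos.1))
    refine le_trans ?_ (abs_le_lq q _ 0)
    have h7 : M - Y = M + (-1 : ℝ) • Y := by rw [neg_one_smul, sub_eq_add_neg]
    rw [h7, dg_add, dg_smul, hdY]
    simp only [Pi.add_apply, Pi.smul_apply, smul_eq_mul]
    have h8 : dx 0 = 1 := by simp [hdx]
    rw [h8, ← abs_neg]
    refine le_trans ?_ (le_abs_self _)
    linarith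
  have hupp : schatten q (X - Y) ≤ 14 / 25 := by
    have e : X - Y = U * diagonal (fun i => (((![(1 - ε) * (7 / 25), -((1 - ε) * (7 / 25))] :
        Fin 2 → ℝ) i : ℝ) : ℂ)) * Uᴴ := by
      rw [hX, hY]
      ext i j
      rw [Matrix.sub_apply, Matrix.mul_apply, Fin.sum_univ_two, Matrix.mul_diagonal,
        Matrix.mul_diagonal, Matrix.mul_apply, Fin.sum_univ_two, Matrix.mul_diagonal,
        Matrix.mul_diagonal, Matrix.diagonal_apply]
      fin_cases i <;> fin_cases j <;> simp [hV, hU, hdx] <;> ring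
    have h5 := schatten_le q hUU e (hXpos.1.sub hYpos.1)
    have h6 := lq_pair q ((1 - ε) * (7 / 25)) (mul_nonneg (by linarith) (by norm_num))
    have h7 : 2 * ((1 - ε) * (7 / 25)) ≤ 14 / 25 := by linarith
    linarith
  have hcmp := hmon 2 X Y hXpos hYpos (a := 1 / 2) (b := 1) ⟨by norm_num, by norm_num⟩
    ⟨zero_le_one, le_refl 1⟩ (by norm_num)
  simp only [hM1, hMh] at hcmp
  linarith

/-- For `q ≠ 2` a monotonic pair `(p, q)` has `0 < p ≤ 1`, and `p > 1/4` if `q ≥ 7`. -/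
theorem result (q : ℝ≥0∞) (hq : 1 ≤ q) (hq2 : q ≠ 2) (p : ℝ) (hp : p ≠ 0)
    (h : Monotonic p q) : 0 < p ∧ p ≤ 1 ∧ (7 ≤ q → 1 / 4 < p) := by
  have hp0 : 0 < p := by
    by_contra h0
    exact belowZero q hq p (lt_of_le_of_ne (not_lt.mp h0) hp) h
  refine ⟨hp0, ?_, ?_⟩
  · by_contra h1
    exact aboveOne q hq hq2 p (not_le.mp h1) h
  · intro h7
    by_contra h0
    exact Pool.Agent.H239.RangeQuarter.smallSeven q h7 p hp0 (not_lt.mp h0) h

end Pool.Agent.Results.MP_9bce2c_an.NoOtherRange
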