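import Mathlib

/-!
# MP_9bce2c_an: the weighted power mean with exponent 1/2 is monotonic in every Schatten metric

For positive definite `X, Y` and every `q` in `[1, ∞]` the function
`t ↦ ‖(t X^(1/2) + (1 - t) Y^(1/2))^2 - Y‖_q` is nondecreasing on `[0, 1]`.
So `(p, q) = (1/2, q)` is a monotonic pair for every `q`, in particular for `q ≠ 2`.
-/

namespace Pool.Agent.Results.MP_9bce2c_an.SquareRootMean

open Matrix Finset
open scoped ENNReal ComplexOrder

variable {n : ℕ}

/-- Real powers of a Hermitian matrix by functional calculus. -/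
noncomputable def matPow (A : Matrix (Fin n) (Fin n) ℂ) (p : ℝ) : Matrix (Fin n) (Fin n) ℂ :=
  cfc (fun x : ℝ => x ^ p) A

/-- The weighted power mean `μ_t(X, Y) = (t X^p + (1 - t) Y^p)^(1/p)`. -/
noncomputable def powerMean (p t : ℝ) (X Y : Matrix (Fin n) (Fin n) ℂ) :
    Matrix (Fin n) (Fin n) ℂ :=
  matPow (t • matPow X p + (1 - t) • matPow Y p) (1 / p)

/-- The singular values of a square matrix: the square roots of the eigenvalues of `Aᴴ A`. -/
noncomputable def singVal (A : Matrix (Fin n) (Fin n) ℂ) (i : Fin n) : ℝ :=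
  Real.sqrt ((isHermitian_conjTranspose_mul_self A).eigenvalues i)

/-- The Schatten `q`-norm: the `ℓ_q` norm of the vector of singular values (`q = ∞`: their
maximum). -/
noncomputable def schatten (q : ℝ≥0∞) (A : Matrix (Fin n) (Fin n) ℂ) : ℝ :=
  ‖(WithLp.toLp q (singVal A) : PiLp q (fun _ : Fin n => ℝ))‖

/-- The power mean with exponent `p` is monotonic with respect to `δ_q`. -/
def Monotonic (p : ℝ) (q : ℝ≥0∞) : Prop :=
  ∀ (n : ℕ) (X Y : Matrix (Fin n) (Fin n) ℂ), X.PosDef → Y.PosDef →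
    MonotoneOn (fun t : ℝ => schatten q (powerMean p t X Y - Y)) (Set.Icc 0 1)

/-! ### The `ℓ_q` norm of a vector -/

/-- The `ℓ_q` norm. -/
noncomputable def lq (q : ℝ≥0∞) (a : Fin n → ℝ) : ℝ :=
  ‖(WithLp.toLp q a : PiLp q (fun _ : Fin n => ℝ))‖

lemma lq_add (q : ℝ≥0∞) [Fact (1 ≤ q)] (a b : Fin n → ℝ) : lq q (a + b) ≤ lq q a + lq q b := by
  unfold lq
  rw [WithLp.toLp_add]
  exact norm_add_le _ _

lemma lq_smul (q : ℝ≥0∞) [Fact (1 ≤ q)] (c : ℝ) (a : Fin n → ℝ) :
    lq q (c • a) = |c| * lq q a := by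
  unfold lq
  rw [WithLp.toLp_smul, norm_smul, Real.norm_eq_abs]

lemma lq_nonneg (q : ℝ≥0∞) [Fact (1 ≤ q)] (a : Fin n → ℝ) : 0 ≤ lq q a := norm_nonneg _

lemma lq_top (a : Fin n → ℝ) : lq ∞ a = ⨆ i, |a i| := by
  unfold lq
  rw [PiLp.norm_eq_ciSup]
  rfl

lemma lq_fin {q : ℝ≥0∞} (hq : 0 < q.toReal) (a : Fin n → ℝ) :
    lq q a = (∑ i, |a i| ^ q.toReal) ^ (1 / q.toReal) := by
  unfold lq
  rw [PiLp.norm_eq_sum hq]
  rfl

lemma toReal_ge {q : ℝ≥0∞} (h : 1 ≤ q) (ht : q ≠ ∞) : 1 ≤ q.toReal := by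
  have := (ENNReal.toReal_le_toReal ENNReal.one_ne_top ht).2 h
  simpa using this

/-- Averages by a doubly stochastic matrix do not increase the `ℓ_q` norm; together with
monotonicity. -/
lemma lq_le (q : ℝ≥0∞) [hq : Fact (1 ≤ q)] (a b : Fin n → ℝ) (P : Fin n → Fin n → ℝ)
    (hP : ∀ i j, 0 ≤ P i j) (hr : ∀ i, ∑ j, P i j = 1) (hc : ∀ j, ∑ i, P i j = 1)
    (hab : ∀ i, |a i| ≤ ∑ j, P i j * |b j|) : lq q a ≤ lq q b := by
  by_cases ht : q = ∞
  · subst ht
    rw [lq_top, lq_top]
    rcases isEmpty_or_nonempty (Fin n) with he | he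
    · simp
    · refine ciSup_le fun i => (hab i).trans ?_
      have hb : ∀ j, |b j| ≤ ⨆ i, |b i| := fun j =>
        le_ciSup (f := fun i => |b i|) (Set.finite_range _).bddAbove j
      calc ∑ j, P i j * |b j| ≤ ∑ j, P i j * (⨆ i, |b i|) :=
            sum_le_sum fun j _ => mul_le_mul_of_nonneg_left (hb j) (hP i j)
        _ = ⨆ i, |b i| := by rw [← sum_mul, hr, one_mul]
  · have h1 : 1 ≤ q.toReal := toReal_ge hq.out ht
    have h0 : 0 < q.toReal := by linarith
    rw [lq_fin h0, lq_fin h0]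
    refine Real.rpow_le_rpow (sum_nonneg fun i _ => Real.rpow_nonneg (abs_nonneg _) _) ?_
      (by positivity)
    calc ∑ i, |a i| ^ q.toReal ≤ ∑ i, ∑ j, P i j * |b j| ^ q.toReal := by
          refine sum_le_sum fun i _ => ?_
          refine (Real.rpow_le_rpow (abs_nonneg _) (hab i) h0.le).trans ?_
          exact Real.rpow_arith_mean_le_arith_mean_rpow univ (P i) (fun j => |b j|)
            (fun j _ => hP i j) (hr i) (fun j _ => abs_nonneg _) h1
      _ = ∑ j, |b j| ^ q.toReal := by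
          rw [sum_comm]
          refine sum_congr rfl fun j _ => ?_
          rw [← sum_mul, hc, one_mul]

lemma lq_mono (q : ℝ≥0∞) [Fact (1 ≤ q)] (a b : Fin n → ℝ) (hab : ∀ i, |a i| ≤ |b i|) :
    lq q a ≤ lq q b := by
  refine lq_le q a b (fun i j => if i = j then 1 else 0) (fun i j => by split_ifs <;> norm_num)
    (fun i => by simp) (fun j => by simp) (fun i => ?_)
  simpa using hab i

/-! ### Diagonal entries in a unitary basis -/

/-- Diagonal of `Vᴴ G V`. -/
noncomputable def dg (V G : Matrix (Fin n) (Fin n) ℂ) (i : Fin n) : ℝ := ((Vᴴ * G * V) i i).re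

lemma dg_add (V G H : Matrix (Fin n) (Fin n) ℂ) : dg V (G + H) = dg V G + dg V H := by
  funext i
  simp [dg, Matrix.mul_add, Matrix.add_mul]

lemma dg_smul (V G : Matrix (Fin n) (Fin n) ℂ) (c : ℝ) : dg V (c • G) = c • dg V G := by
  funext i
  simp [dg]

/-- Pinching: if `G = U diag(d) Uᴴ` then the diagonal of `G` in any orthonormal basis has
`ℓ_q` norm at most that of `d`. -/
lemma lq_dg_le (q : ℝ≥0∞) [Fact (1 ≤ q)] (V U G : Matrix (Fin n) (Fin n) ℂ) (d : Fin n → ℝ)
    (hV : Vᴴ * V = 1) (hU : Uᴴ * U = 1)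
    (hG : G = U * diagonal (fun i => (d i : ℂ)) * Uᴴ) : lq q (dg V G) ≤ lq q d := by
  have hV' : V * Vᴴ = 1 := mul_eq_one_comm.mp hV
  have hU' : U * Uᴴ = 1 := mul_eq_one_comm.mp hU
  set W : Matrix (Fin n) (Fin n) ℂ := Vᴴ * U with hW
  have hW1 : W * Wᴴ = 1 := by
    rw [hW, conjTranspose_mul, conjTranspose_conjTranspose]
    calc Vᴴ * U * (Uᴴ * V) = Vᴴ * (U * Uᴴ) * V := by simp only [Matrix.mul_assoc]
      _ = 1 := by rw [hU', Matrix.mul_one, hV]
  have hW2 : Wᴴ * W = 1 := mul_eq_one_comm.mp hW1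
  have hsq : ∀ i j, (W i j * star (W i j)).re = Complex.normSq (W i j) := by
    intro i j
    rw [Complex.star_def, Complex.mul_conj]
    simp
  refine lq_le q _ _ (fun i j => Complex.normSq (W i j)) (fun i j => Complex.normSq_nonneg _)
    (fun i => ?_) (fun j => ?_) (fun i => ?_)
  · have := congrArg (fun M : Matrix (Fin n) (Fin n) ℂ => (M i i).re) hW1
    simp only [Matrix.mul_apply, conjTranspose_apply, Matrix.one_apply_eq, Complex.one_re,
      Complex.re_sum, hsq] at this
    exact this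
  · have := congrArg (fun M : Matrix (Fin n) (Fin n) ℂ => (M j j).re) hW2
    simp only [Matrix.mul_apply, conjTranspose_apply, Matrix.one_apply_eq, Complex.one_re,
      Complex.re_sum] at this
    rw [← this]
    refine sum_congr rfl fun i _ => ?_
    rw [← hsq, mul_comm]
  · have hd : dg V G i = ∑ j, Complex.normSq (W i j) * d j := by
      unfold dg
      have : Vᴴ * G * V = W * diagonal (fun i => (d i : ℂ)) * Wᴴ := by
        rw [hG, hW, conjTranspose_mul, conjTranspose_conjTranspose]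
        simp only [Matrix.mul_assoc]
      rw [this, Matrix.mul_apply, Complex.re_sum]
      refine sum_congr rfl fun j _ => ?_
      rw [Matrix.mul_diagonal, conjTranspose_apply, Complex.star_def, mul_right_comm,
        Complex.mul_conj]
      simp
    rw [hd]
    refine (abs_sum_le_sum_abs _ _).trans (le_of_eq ?_)
    refine sum_congr rfl fun j _ => ?_
    rw [abs_mul, abs_of_nonneg (Complex.normSq_nonneg _)]

/-! ### Spectral decomposition -/

lemma spec {G : Matrix (Fin n) (Fin n) ℂ} (hG : G.IsHermitian) :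
    ∃ U : Matrix (Fin n) (Fin n) ℂ, Uᴴ * U = 1 ∧
      G = U * diagonal (fun i => (hG.eigenvalues i : ℂ)) * Uᴴ := by
  refine ⟨(hG.eigenvectorUnitary : Matrix (Fin n) (Fin n) ℂ), ?_, ?_⟩
  · have := (Unitary.mem_iff.mp hG.eigenvectorUnitary.2).1
    exact this
  · have := hG.spectral_theorem
    rw [Unitary.conjStarAlgAut_apply] at this
    exact this

lemma dg_diag {U G : Matrix (Fin n) (Fin n) ℂ} {d : Fin n → ℝ} (hU : Uᴴ * U = 1)
    (hG : G = U * diagonal (fun i => (d i : ℂ)) * Uᴴ) : dg U G = d := by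
  funext i
  have : Uᴴ * G * U = diagonal (fun i => (d i : ℂ)) := by
    rw [hG]
    calc Uᴴ * (U * diagonal (fun i => (d i : ℂ)) * Uᴴ) * U
        = (Uᴴ * U) * diagonal (fun i => (d i : ℂ)) * (Uᴴ * U) := by simp only [Matrix.mul_assoc]
      _ = _ := by rw [hU, Matrix.one_mul, Matrix.mul_one]
  simp [dg, this]

/-- Triangle inequality. -/
lemma eig_le (q : ℝ≥0∞) [Fact (1 ≤ q)] {G A B : Matrix (Fin n) (Fin n) ℂ}
    (hG : G.IsHermitian) (hA : A.IsHermitian) (hB : B.IsHermitian) (a b : ℝ)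
    (h : G = a • A + b • B) :
    lq q hG.eigenvalues ≤ |a| * lq q hA.eigenvalues + |b| * lq q hB.eigenvalues := by
  obtain ⟨U, hU, hGU⟩ := spec hG
  obtain ⟨V, hV, hAV⟩ := spec hA
  obtain ⟨W, hW, hBW⟩ := spec hB
  have h1 : hG.eigenvalues = a • dg U A + b • dg U B := by
    rw [← dg_diag hU hGU]
    conv_lhs => rw [h]
    rw [dg_add, dg_smul, dg_smul]
  rw [h1]
  refine (lq_add q _ _).trans ?_
  rw [lq_smul, lq_smul]
  exact add_le_add (mul_le_mul_of_nonneg_left (lq_dg_le q U V A _ hU hV hAV) (abs_nonneg _))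
    (mul_le_mul_of_nonneg_left (lq_dg_le q U W B _ hU hW hBW) (abs_nonneg _))

lemma eig_sq_le (q : ℝ≥0∞) [Fact (1 ≤ q)] {K L : Matrix (Fin n) (Fin n) ℂ}
    (hK : K.IsHermitian) (hL : L.IsHermitian) (h : L = K * K) :
    lq q hL.eigenvalues ≤ lq q (fun i => hK.eigenvalues i ^ 2) := by
  obtain ⟨U, hU, hLU⟩ := spec hL
  obtain ⟨V, hV, hKV⟩ := spec hK
  have h2 : L = V * diagonal (fun i => ((hK.eigenvalues i ^ 2 : ℝ) : ℂ)) * Vᴴ := by
    rw [h]
    conv_lhs => rw [hKV]
    calc V * diagonal (fun i => (hK.eigenvalues i : ℂ)) * Vᴴ *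
          (V * diagonal (fun i => (hK.eigenvalues i : ℂ)) * Vᴴ)
        = V * diagonal (fun i => (hK.eigenvalues i : ℂ)) * (Vᴴ * V) *
          diagonal (fun i => (hK.eigenvalues i : ℂ)) * Vᴴ := by simp only [Matrix.mul_assoc]
      _ = _ := by
          rw [hV, Matrix.mul_one, Matrix.mul_assoc V, diagonal_mul_diagonal]
          congr 3
          funext i
          push_cast
          ring
  have h1 := lq_dg_le q U V L _ hU hV h2
  rwa [dg_diag hU hLU] at h1

/-- The Powers-Størmer inequality for all Schatten norms. -/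
lemma key (q : ℝ≥0∞) [Fact (1 ≤ q)] {S B H K : Matrix (Fin n) (Fin n) ℂ}
    (hS : S.PosSemidef) (hB : B.PosSemidef) (hH : H.IsHermitian) (hK : K.IsHermitian)
    (hKe : K = S - B) (hHe : H = S * S - B * B) :
    lq q (fun i => hK.eigenvalues i ^ 2) ≤ lq q hH.eigenvalues := by
  obtain ⟨V, hV, hKV⟩ := spec hK
  obtain ⟨W, hW, hHW⟩ := spec hH
  have hV' : V * Vᴴ = 1 := mul_eq_one_comm.mp hV
  refine le_trans (lq_mono q _ (dg V H) fun i => ?_) (lq_dg_le q V W H _ hV hW hHW)
  set k := hK.eigenvalues with hk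
  set S' := Vᴴ * S * V with hS'
  set B' := Vᴴ * B * V with hB'
  have hSp : S'.PosSemidef := by
    have := hS.conjTranspose_mul_mul_same V
    exact this
  have hBp : B'.PosSemidef := by
    have := hB.conjTranspose_mul_mul_same V
    exact this
  have hdiff : S' - B' = diagonal (fun i => (k i : ℂ)) := by
    rw [hS', hB', ← Matrix.sub_mul, ← Matrix.mul_sub, ← hKe]
    conv_lhs => rw [hKV]
    calc Vᴴ * (V * diagonal (fun i => (k i : ℂ)) * Vᴴ) * V
        = (Vᴴ * V) * diagonal (fun i => (k i : ℂ)) * (Vᴴ * V) := by simp only [Matrix.mul_assoc]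
      _ = _ := by rw [hV, Matrix.one_mul, Matrix.mul_one]
  have hSS : Vᴴ * (S * S) * V = S' * S' := by
    rw [hS']
    calc Vᴴ * (S * S) * V = Vᴴ * S * 1 * S * V := by
          simp only [Matrix.mul_assoc, Matrix.one_mul]
      _ = _ := by rw [← hV']; simp only [Matrix.mul_assoc]
  have hBB : Vᴴ * (B * B) * V = B' * B' := by
    rw [hB']
    calc Vᴴ * (B * B) * V = Vᴴ * B * 1 * B * V := by
          simp only [Matrix.mul_assoc, Matrix.one_mul]
      _ = _ := by rw [← hV']; simp only [Matrix.mul_assoc]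
  have hSd : S' = B' + diagonal (fun i => (k i : ℂ)) := by rw [← hdiff]; abel
  have hHd : Vᴴ * H * V = B' * diagonal (fun i => (k i : ℂ)) +
      diagonal (fun i => (k i : ℂ)) * S' := by
    rw [hHe, Matrix.mul_sub, Matrix.sub_mul, hSS, hBB]
    calc S' * S' - B' * B' = (B' + diagonal (fun i => (k i : ℂ))) * S' - B' * B' := by
          rw [← hSd]
      _ = B' * (S' - B') + diagonal (fun i => (k i : ℂ)) * S' := by
          rw [Matrix.add_mul, Matrix.mul_sub]; abel
      _ = _ := by rw [hdiff]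
  have hs0 : 0 ≤ (S' i i).re := by
    have := hSp.diag_nonneg (i := i)
    exact (Complex.le_def.mp this).1
  have hb0 : 0 ≤ (B' i i).re := by
    have := hBp.diag_nonneg (i := i)
    exact (Complex.le_def.mp this).1
  have hki : k i = (S' i i).re - (B' i i).re := by
    have := congrArg (fun M : Matrix (Fin n) (Fin n) ℂ => (M i i).re) hdiff
    simp only [Matrix.sub_apply, Complex.sub_re, diagonal_apply_eq, Complex.ofReal_re] at this
    exact this.symm
  have hdg : dg V H i = k i * ((S' i i).re + (B' i i).re) := by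
    unfold dg
    rw [hHd, Matrix.add_apply, Matrix.mul_diagonal, Matrix.diagonal_mul, Complex.add_re]
    simp only [Complex.mul_re, Complex.ofReal_re, Complex.ofReal_im, mul_zero, zero_mul, sub_zero]
    ring
  rw [hdg, abs_mul, abs_of_nonneg (sq_nonneg (k i)), ← sq_abs, sq]
  refine mul_le_mul_of_nonneg_left ?_ (abs_nonneg _)
  rw [hki, abs_of_nonneg (add_nonneg hs0 hb0), abs_le]
  constructor <;> linarith

/-! ### Singular values of a Hermitian matrix -/

lemma lq_perm (q : ℝ≥0∞) [hq : Fact (1 ≤ q)] (f g : Fin n → ℝ)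
    (h : univ.val.map f = univ.val.map g) (F : ℝ → ℝ) :
    lq q (fun i => F (f i)) = lq q (fun i => F (g i)) := by
  by_cases ht : q = ∞
  · subst ht
    rw [lq_top, lq_top]
    have hr : Set.range f = Set.range g := by
      ext x
      have := congrArg (fun m : Multiset ℝ => x ∈ m) h
      simpa using this
    have h1 : ∀ u : Fin n → ℝ, ⨆ i, |F (u i)| = sSup ((fun x => |F x|) '' Set.range u) := by
      intro u
      rw [iSup, ← Set.range_comp]
      rfl
    rw [h1, h1, hr]
  · have h1 : 1 ≤ q.toReal := toReal_ge hq.out ht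
    have h0 : 0 < q.toReal := by linarith
    rw [lq_fin h0, lq_fin h0]
    congr 1
    have h2 := congrArg (fun m : Multiset ℝ => (m.map (fun x => |F x| ^ q.toReal)).sum) h
    simp only [Multiset.map_map] at h2
    exact h2

lemma schatten_eq (q : ℝ≥0∞) [Fact (1 ≤ q)] {G : Matrix (Fin n) (Fin n) ℂ}
    (hG : G.IsHermitian) : schatten q G = lq q hG.eigenvalues := by
  have hchar : (Gᴴ * G).charpoly = ∏ i, (Polynomial.X - Polynomial.C
      ((hG.eigenvalues i ^ 2 : ℝ) : ℂ)) := by
    have h1 : Gᴴ * G = cfc (fun x : ℝ => x ^ 2) G := by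
      rw [cfc_pow_id G 2 hG.isSelfAdjoint, hG.eq, sq]
    rw [h1, hG.charpoly_cfc_eq]
    rfl
  set hE := isHermitian_conjTranspose_mul_self G with hEdef
  have hm : univ.val.map (fun i => ((hE.eigenvalues i : ℝ) : ℂ)) =
      univ.val.map (fun i => ((hG.eigenvalues i ^ 2 : ℝ) : ℂ)) := by
    have h1 := hE.roots_charpoly_eq_eigenvalues
    rw [hchar] at h1
    have h2 : (∏ i : Fin n, (Polynomial.X - Polynomial.C
      ((hG.eigenvalues i ^ 2 : ℝ) : ℂ))).roots =
        univ.val.map (fun i => ((hG.eigenvalues i ^ 2 : ℝ) : ℂ)) := by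
      exact Polynomial.roots_multiset_prod_X_sub_C
        (univ.val.map (fun i => ((hG.eigenvalues i ^ 2 : ℝ) : ℂ))) |>.symm ▸ (by
          simp [Finset.prod, Function.comp_def])
    rw [h2] at h1
    rw [h1]
    rfl
  have hm' : univ.val.map hE.eigenvalues = univ.val.map (fun i => hG.eigenvalues i ^ 2) := by
    have h1 := congrArg (Multiset.map Complex.re) hm
    simp only [Multiset.map_map, Function.comp_def, Complex.ofReal_re] at h1
    exact h1
  have h3 := lq_perm q _ _ hm' Real.sqrt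
  have h4 : schatten q G = lq q (fun i => Real.sqrt (hE.eigenvalues i)) := rfl
  rw [h4, h3]
  refine le_antisymm (lq_mono q _ _ fun i => ?_) (lq_mono q _ _ fun i => ?_)
  · rw [Real.sqrt_sq_eq_abs, abs_abs]
  · rw [Real.sqrt_sq_eq_abs, abs_abs]

/-! ### Powers -/

lemma matPow_posSemidef {X : Matrix (Fin n) (Fin n) ℂ} (hX : X.PosDef) (p : ℝ) :
    (matPow X p).PosSemidef := by
  unfold matPow
  rw [hX.1.cfc_eq, IsHermitian.cfc, Unitary.conjStarAlgAut_apply]
  refine PosSemidef.mul_mul_conjTranspose_same ?_ _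
  rw [posSemidef_diagonal_iff]
  intro i
  have h1 : 0 < hX.1.eigenvalues i := hX.eigenvalues_pos i
  have h2 : 0 ≤ hX.1.eigenvalues i ^ p := (Real.rpow_pos_of_pos h1 p).le
  simpa using h2

lemma matPow_half_sq {Y : Matrix (Fin n) (Fin n) ℂ} (hY : Y.PosDef) :
    matPow Y (1 / 2) * matPow Y (1 / 2) = Y := by
  unfold matPow
  have hc : ContinuousOn (fun x : ℝ => x ^ (1 / 2 : ℝ)) (spectrum ℝ Y) :=
    (Real.continuous_rpow_const (by norm_num)).continuousOn
  rw [← cfc_mul _ _ Y hc hc]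
  conv_rhs => rw [← cfc_id ℝ Y hY.1]
  refine cfc_congr fun x hx => ?_
  rw [hY.1.spectrum_real_eq_range_eigenvalues] at hx
  obtain ⟨i, rfl⟩ := hx
  have h1 : 0 < hY.1.eigenvalues i := hY.eigenvalues_pos i
  simp only [id]
  rw [← Real.rpow_add h1]
  norm_num

lemma matPow_two {S : Matrix (Fin n) (Fin n) ℂ} (hS : S.IsHermitian) :
    matPow S (1 / (1 / 2)) = S * S := by
  unfold matPow
  have : (fun x : ℝ => x ^ (1 / (1 / 2) : ℝ)) = fun x : ℝ => x ^ 2 := by
    funext x
    rw [show (1 / (1 / 2) : ℝ) = ((2 : ℕ) : ℝ) by norm_num, Real.rpow_natCast]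
  rw [this, cfc_pow_id S 2 hS.isSelfAdjoint, sq]

/-- For `p = 1/2` the weighted power mean is monotonic with respect to `δ_q` for every
`q` in `[1, ∞]`. -/
theorem result : ∀ q : ℝ≥0∞, 1 ≤ q → Monotonic (1 / 2) q := by
  intro q hq1 n X Y hX hY
  have : Fact (1 ≤ q) := ⟨hq1⟩
  set A := matPow X (1 / 2) with hA
  set B := matPow Y (1 / 2) with hB
  have hAp : A.PosSemidef := matPow_posSemidef hX _
  have hBp : B.PosSemidef := matPow_posSemidef hY _
  have hBB : B * B = Y := matPow_half_sq hY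
  have hSp : ∀ t ∈ Set.Icc (0 : ℝ) 1, (t • A + (1 - t) • B).PosSemidef := by
    intro t ht
    exact (hAp.smul ht.1).add (hBp.smul (by linarith [ht.2]))
  have hmean : ∀ t ∈ Set.Icc (0 : ℝ) 1, powerMean (1 / 2) t X Y - Y =
      (t • A + (1 - t) • B) * (t • A + (1 - t) • B) - B * B := by
    intro t ht
    unfold powerMean
    rw [matPow_two (hSp t ht).1, hBB]
  have hHerm : ∀ t ∈ Set.Icc (0 : ℝ) 1,
      ((t • A + (1 - t) • B) * (t • A + (1 - t) • B) - B * B).IsHermitian := by
    intro t ht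
    have h1 := (hSp t ht).1
    refine IsHermitian.sub ?_ ?_
    · rw [IsHermitian, conjTranspose_mul, h1.eq]
    · rw [IsHermitian, conjTranspose_mul, hBp.1.eq]
  intro s hs t ht hst
  simp only
  rw [hmean s hs, hmean t ht, schatten_eq q (hHerm s hs), schatten_eq q (hHerm t ht)]
  rcases eq_or_lt_of_le ht.1 with h0 | h0
  · have hs0 : s = 0 := le_antisymm (by rw [h0]; exact hst) hs.1
    subst hs0
    subst h0
    exact le_rfl
  -- the square of the difference
  have hKH : (t • A + (1 - t) • B - B).IsHermitian := (hSp t ht).1.sub hBp.1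
  have hLH : ((t • A + (1 - t) • B - B) * (t • A + (1 - t) • B - B)).IsHermitian := by
    rw [IsHermitian, conjTranspose_mul, hKH.eq]
  have hkey := key q (hSp t ht) hBp (hHerm t ht) hKH rfl rfl
  have hsq := eig_sq_le q hKH hLH rfl
  have hid : (s • A + (1 - s) • B) * (s • A + (1 - s) • B) - B * B =
      (s / t) • ((t • A + (1 - t) • B) * (t • A + (1 - t) • B) - B * B) +
      (-(s / t * (1 - s / t))) •
        ((t • A + (1 - t) • B - B) * (t • A + (1 - t) • B - B)) := by
    have ht0 : t ≠ 0 := h0.ne'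
    have e1 : s • A + (1 - s) • B = B + s • (A - B) := by
      rw [smul_sub, sub_smul, one_smul]; abel
    have e2 : t • A + (1 - t) • B = B + t • (A - B) := by
      rw [smul_sub, sub_smul, one_smul]; abel
    rw [e1, e2]
    generalize A - B = D
    simp only [add_sub_cancel_left, Matrix.add_mul, Matrix.mul_add, Matrix.smul_mul,
      Matrix.mul_smul, smul_add, smul_sub, smul_smul]
    have c1 : s / t * t = s := div_mul_cancel₀ s ht0
    have c2 : s / t * (t * t) = s * t := by field_simp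
    have c3 : -(s / t * (1 - s / t)) * (t * t) = s * s - s * t := by field_simp; ring
    rw [c1, c2, c3, sub_smul]
    abel
  have htri := eig_le q (hHerm s hs) (hHerm t ht) hLH (s / t) (-(s / t * (1 - s / t))) hid
  have hθ0 : 0 ≤ s / t := div_nonneg hs.1 h0.le
  have hθ1 : s / t ≤ 1 := (div_le_one h0).2 hst
  have hθ2 : 0 ≤ s / t * (1 - s / t) := mul_nonneg hθ0 (by linarith)
  rw [abs_of_nonneg hθ0, abs_neg, abs_of_nonneg hθ2] at htri
  have hN := lq_nonneg q (hHerm t ht).eigenvalues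
  have hLN := hsq.trans hkey
  have h5 : s / t * (1 - s / t) * lq q hLH.eigenvalues ≤
      s / t * (1 - s / t) * lq q (hHerm t ht).eigenvalues :=
    mul_le_mul_of_nonneg_left hLN hθ2
  nlinarith [mul_nonneg hN (mul_self_nonneg (1 - s / t))]

end Pool.Agent.Results.MP_9bce2c_an.SquareRootMean
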