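import Pool.Agent.H422PM.TraceB

/-!
# MP_9bce2c_an: exponents in `[1/2, 1)` are monotonic in the trace norm

For every `p` with `1/2 ≤ p < 1` the weighted power mean with exponent `p` is monotonic with
respect to `δ_1`.  For `s ≤ t` put `θ = s / t`, `A = X^p`, `B = Y^p` with `X` the mean at `t`, and
`M = (θ A + (1 - θ) B)^(1/p)`.  Operator convexity of `x^(1/p)` gives
`M - Y ≤ θ (X - Y) ≤ θ (X - Y)₊`, and the inequality
`tr X - tr X^(1-p) Y^p ≤ tr (X - Y)₊` (Audenaert et al.) together with Young's inequality for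
traces gives `p (tr X - tr M) ≤ (1 - θ) tr (X - Y)₊`.
-/

set_option autoImplicit false

namespace Pool.Agent.Results.MP_9bce2c_an.TraceNorm

open Matrix Finset
open scoped ENNReal ComplexOrder
open Pool.Agent.Results.MP_9bce2c_an.SquareRootMean Pool.Agent.H239.RangeBase
open Pool.Agent.H422PM.TraceA Pool.Agent.H422PM.TraceB

variable {n : ℕ}

lemma schatten_zero : schatten 1 (0 : Matrix (Fin n) (Fin n) ℂ) = 0 := by
  have h0 : (0 : Matrix (Fin n) (Fin n) ℂ).IsHermitian := isHermitian_zero
  have h := schatten_le 1 (U := (1 : Matrix (Fin n) (Fin n) ℂ)) (G := 0) (d := fun _ => 0)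
    (by simp) (by simp) h0
  rw [lq_one] at h
  simp only [abs_zero, sum_const_zero] at h
  exact le_antisymm h (norm_nonneg _)

lemma open_case {p : ℝ} (hp1 : 1 / 2 < p) (hp2 : p < 1) : Monotonic p 1 := by
  intro n X Y hX hY
  have hp0 : 0 < p := by linarith
  have hpp : p * (1 / p) = 1 := mul_one_div_cancel hp0.ne'
  have hpp' : (1 / p) * p = 1 := one_div_mul_cancel hp0.ne'
  set A := matPow X p with hA
  set B := matPow Y p with hB
  have hAp : A.PosSemidef := psd_pow hX.posSemidef p
  have hBp : B.PosSemidef := psd_pow hY.posSemidef p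
  have hSp : ∀ t ∈ Set.Icc (0 : ℝ) 1, (t • A + (1 - t) • B).PosSemidef := fun t ht =>
    (hAp.smul ht.1).add (hBp.smul (by linarith [ht.2]))
  intro s hs t ht hst
  simp only
  rcases eq_or_lt_of_le hs.1 with h0 | h0
  · subst h0
    have e : powerMean p 0 X Y - Y = 0 := by
      unfold powerMean
      rw [zero_smul, zero_add, sub_zero, one_smul, pow_pow hY.posSemidef hpp, sub_self]
    rw [e, schatten_zero]
    exact norm_nonneg _
  · have ht0 : 0 < t := lt_of_lt_of_le h0 hst
    have hθ0 : 0 < s / t := div_pos h0 ht0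
    have hθ1 : s / t ≤ 1 := (div_le_one ht0).2 hst
    have hXt : (powerMean p t X Y).PosSemidef := psd_pow (hSp t ht) _
    have e1 : matPow (powerMean p t X Y) p = t • A + (1 - t) • B := by
      unfold powerMean
      exact pow_pow (hSp t ht) hpp'
    have e2 : powerMean p s X Y
        = matPow ((s / t) • matPow (powerMean p t X Y) p + (1 - s / t) • matPow Y p) (1 / p) := by
      rw [e1]
      unfold powerMean
      congr 1
      rw [← hA, ← hB, smul_add, smul_smul, smul_smul, div_mul_cancel₀ s ht0.ne', add_assoc,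
        ← add_smul]
      congr 2
      field_simp
      ring
    rw [e2]
    exact main hp1 hp2 hXt hY.posSemidef hθ0 hθ1

/-- **Theorem.** For `1/2 ≤ p < 1` the weighted power mean with exponent `p` is monotonic with
respect to the trace metric `δ_1`. -/
theorem result (p : ℝ) (hp1 : 1 / 2 ≤ p) (hp2 : p < 1) : Monotonic p 1 := by
  rcases eq_or_lt_of_le hp1 with h | h
  · subst h
    exact SquareRootMean.result 1 le_rfl
  · exact open_case h hp2

end Pool.Agent.Results.MP_9bce2c_an.TraceNorm
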