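import Pool.Agent.H422PM.TraceE

/-!
# MP_9bce2c_an: exponents below `1/4` are not monotonic for `q` near `1`

For `0 < p < 1/4` there is `q₀ > 1` such that the weighted power mean with exponent `p` is
monotonic with respect to `δ_q` for no `q ∈ [1, q₀)`; in particular not for the trace metric
`δ_1`.  With `r = 1/p > 4` the counterexamples are `X = A^r`, `Y = B^r` with
`(1 - s) A = e₁ e₁ᵀ + s`, `s B = σ v vᵀ + s²` and `s` small.
-/

set_option autoImplicit false

namespace Pool.Agent.Results.MP_9bce2c_an.TraceNormLow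

open Matrix Finset
open scoped ENNReal ComplexOrder
open Pool.Agent.Results.MP_9bce2c_an.SquareRootMean

/-- The `ℓ_x` norm of the singular values of a two by two matrix, as a function of `x`. -/
noncomputable def nrm (F : Matrix (Fin 2) (Fin 2) ℂ) (x : ℝ) : ℝ :=
  (∑ i, |singVal F i| ^ x) ^ (1 / x)

lemma schatten_eq_nrm (q : ℝ≥0∞) (h0 : 0 < q.toReal) (F : Matrix (Fin 2) (Fin 2) ℂ) :
    schatten q F = nrm F q.toReal := lq_fin h0 (singVal F)

lemma nrm_cont (F : Matrix (Fin 2) (Fin 2) ℂ) : ContinuousAt (nrm F) 1 := by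
  have h : ∀ i, ContinuousAt (fun x : ℝ => |singVal F i| ^ x) 1 := fun i =>
    ContinuousAt.rpow continuousAt_const continuousAt_id (Or.inr one_pos)
  have e : nrm F = fun x => (|singVal F 0| ^ x + |singVal F 1| ^ x) ^ (1 / x) := by
    funext x
    simp only [nrm, Fin.sum_univ_two]
  rw [e]
  refine ContinuousAt.rpow ((h 0).add (h 1)) ?_ (Or.inr (by norm_num))
  exact continuousAt_const.div continuousAt_id one_ne_zero

/-- **Theorem.** For `0 < p < 1/4` there is `q₀ > 1` such that for no `q ∈ [1, q₀)` the weighted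
power mean with exponent `p` is monotonic with respect to `δ_q`. -/
theorem result (p : ℝ) (hp0 : 0 < p) (hp1 : p < 1 / 4) :
    ∃ q₀ : ℝ, 1 < q₀ ∧ ∀ q : ℝ≥0∞, 1 ≤ q → q < ENNReal.ofReal q₀ → ¬ Monotonic p q := by
  obtain ⟨X, Y, hX, hY, t, ht, hlt⟩ := Pool.Agent.H422PM.TraceE.counter p hp0 hp1
  rw [schatten_eq_nrm 1 (by simp), schatten_eq_nrm 1 (by simp), ENNReal.toReal_one] at hlt
  have hev : ∀ᶠ x in nhds (1 : ℝ),
      nrm (powerMean p 1 X Y - Y) x < nrm (powerMean p t X Y - Y) x :=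
    (nrm_cont _).eventually_lt (nrm_cont _) hlt
  obtain ⟨δ, hδ, hball⟩ := Metric.eventually_nhds_iff.1 hev
  refine ⟨1 + δ, by linarith, fun q hq1 hq2 hmon => ?_⟩
  have ht' : q ≠ ∞ := (lt_of_lt_of_le hq2 le_top).ne
  have h1 : 1 ≤ q.toReal := toReal_ge hq1 ht'
  have h2 : q.toReal < 1 + δ := by
    rw [ENNReal.lt_ofReal_iff_toReal_lt ht'] at hq2
    exact hq2
  have h3 := hball (y := q.toReal) (by
    rw [Real.dist_eq, abs_of_nonneg (by linarith)]; linarith)
  have h0 : 0 < q.toReal := by linarith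
  have h4 := hmon 2 X Y hX hY ht (show (1 : ℝ) ∈ Set.Icc (0 : ℝ) 1 from ⟨zero_le_one, le_rfl⟩) ht.2
  simp only [schatten_eq_nrm q h0] at h4
  exact absurd h4 (not_le.2 h3)

end Pool.Agent.Results.MP_9bce2c_an.TraceNormLow
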